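import Pool.Agent.W783.Perc.Stmts

/-! Project PC (helper783), task PC-LINK. -/

set_option autoImplicit false

open MeasureTheory Set

namespace Pool.Agent.W376.PC

open Pool.Agent.W783.PC

lemma real_le_of_le {ι : Type} (r : ι → unitInterval) (A : Set (ι → Bool)) (b : ℝ) (hb : 0 ≤ b)
    (h : pm r A ≤ ENNReal.ofReal b) : (pm r).real A ≤ b := by
  unfold Measure.real
  exact ENNReal.toReal_le_of_le_ofReal hb h

lemma le_ofReal_of_real {ι : Type} (r : ι → unitInterval) (A : Set (ι → Bool)) (b : ℝ)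
    (h : (pm r).real A ≤ b) : pm r A ≤ ENNReal.ofReal b := by
  rw [← ENNReal.ofReal_toReal (measure_ne_top (pm r) A)]
  exact ENNReal.ofReal_le_ofReal h

theorem s_link (hg : S_glue) (hc : S_closedF) : S_link := by
  classical
  intro n r S X Y w L hw hXY hdis hb
  set E : Cfg n → Set (Cfg n) := fun ω => {ω' | L ≤ ((X ω).card : ℝ) * (Y ω).card ∧
    ∀ y ∈ X ω, ∀ z ∈ Y ω, ω' (Sum.inr s(y, z)) = false} with hE
  have h1 : ∀ ω ω' : Cfg n, (∀ c ∈ S, ω c = ω' c) → E ω = E ω' := by
    intro ω ω' h
    obtain ⟨a, b⟩ := hXY ω ω' h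
    simp only [hE, a, b]
  have h2 : ∀ ω, DepOn (E ω) {c | c ∉ S} := by
    intro ω ω₁ ω₂ h
    simp only [hE, mem_ofPred_eq]
    apply and_congr_right
    intro _
    constructor
    · intro H y hy z hz
      rw [← h _ (hb ω y hy z hz).1]; exact H y hy z hz
    · intro H y hy z hz
      rw [h _ (hb ω y hy z hz).1]; exact H y hy z hz
  have h3 : ∀ ω, MeasurableSet (E ω) := by
    intro ω
    by_cases hL : L ≤ ((X ω).card : ℝ) * (Y ω).card
    · have : E ω = ⋂ y ∈ X ω, ⋂ z ∈ Y ω, (fun ω' : Cfg n => ω' (Sum.inr s(y, z))) ⁻¹' {false} := by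
        ext ω'
        simp [hE, hL]
      rw [this]
      apply Finset.measurableSet_biInter
      intro y _
      apply Finset.measurableSet_biInter
      intro z _
      exact (measurable_pi_apply _) (measurableSet_singleton _)
    · have : E ω = ∅ := by
        ext ω'
        simp [hE, hL]
      rw [this]; exact MeasurableSet.empty
  obtain ⟨_, h4⟩ := hg (Ix n) r S E h1 h2 h3
  have h5 : ∀ ω, pm r (E ω) ≤ ENNReal.ofReal (Real.exp (-(w * L))) := by
    intro ω
    by_cases hL : L ≤ ((X ω).card : ℝ) * (Y ω).card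
    · apply le_ofReal_of_real
      set F : Finset (Ix n) := (X ω ×ˢ Y ω).image (fun q => Sum.inr s(q.1, q.2)) with hF
      have hcard : F.card = (X ω).card * (Y ω).card := by
        rw [hF, Finset.card_image_of_injOn, Finset.card_product]
        intro q hq q' hq' hqq
        simp only [Finset.coe_product, mem_prod, Finset.mem_coe] at hq hq'
        have h6 := Sum.inr_injective hqq
        rw [Sym2.eq_iff] at h6
        rcases h6 with ⟨a, b⟩ | ⟨a, b⟩
        · exact Prod.ext a b
        · exfalso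
          have : q.1 ∈ Y ω := a ▸ hq'.2
          exact (Finset.disjoint_left.mp (hdis ω)) hq.1 this
      have h6 : (pm r).real {ω' | ∀ c ∈ F, ω' c = false} ≤ Real.exp (-(w * F.card)) := by
        apply hc
        intro c hcF
        rw [hF, Finset.mem_image] at hcF
        obtain ⟨q, hq, rfl⟩ := hcF
        rw [Finset.mem_product] at hq
        exact (hb ω q.1 hq.1 q.2 hq.2).2
      have h7 : E ω ⊆ {ω' | ∀ c ∈ F, ω' c = false} := by
        intro ω' hω' c hcF
        rw [hF, Finset.mem_image] at hcF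
        obtain ⟨q, hq, rfl⟩ := hcF
        rw [Finset.mem_product] at hq
        exact hω'.2 q.1 hq.1 q.2 hq.2
      refine (measureReal_mono h7 (measure_ne_top _ _)).trans (h6.trans ?_)
      apply Real.exp_le_exp.mpr
      rw [hcard]
      push_cast
      have := mul_le_mul_of_nonneg_left hL hw
      linarith
    · have : E ω = ∅ := by
        ext ω'
        simp [hE, hL]
      rw [this, measure_empty]; exact zero_le
  apply real_le_of_le r _ _ (Real.exp_pos _).le
  have h6 : {ω : Cfg n | L ≤ ((X ω).card : ℝ) * (Y ω).card ∧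
    ∀ y ∈ X ω, ∀ z ∈ Y ω, ω (Sum.inr s(y, z)) = false} = {ω | ω ∈ E ω} := rfl
  rw [h6, h4]
  calc ∫⁻ ω, pm r (E ω) ∂(pm r) ≤ ∫⁻ _, ENNReal.ofReal (Real.exp (-(w * L))) ∂(pm r) :=
        lintegral_mono h5
    _ = ENNReal.ofReal (Real.exp (-(w * L))) := by
        rw [lintegral_const, measure_univ, mul_one]

end Pool.Agent.W376.PC
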