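import Pool.Agent.W783.Perc.Stmts

/-! Project PC (helper783), task PC-LOW. -/

set_option autoImplicit false

open MeasureTheory Set

namespace Pool.Agent.W376.PC

open Pool.Agent.W783.PC
open scoped ENNReal

section product

lemma bern_true (q : unitInterval) : bern q {true} = ENNReal.ofReal (q : ℝ) := by
  simp [bern]

lemma pm_open {ι : Type} (r : ι → unitInterval) (F : Finset ι) :
    pm r {ω | ∀ c ∈ F, ω c = true} = ∏ c ∈ F, ENNReal.ofReal (r c : ℝ) := by
  have h : {ω : ι → Bool | ∀ c ∈ F, ω c = true} = Set.pi F (fun _ => {true}) := by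
    ext ω; simp [Set.pi]
  rw [h]
  unfold pm
  rw [Measure.infinitePi_pi _ (fun _ _ => measurableSet_singleton _)]
  exact Finset.prod_congr rfl (fun c _ => bern_true _)

end product

section lists

variable {n : ℕ}

open scoped Classical in
/-- coordinates of a path, given by its list of vertices after the first one -/
noncomputable def FF : V n → List (V n) → Finset (Ix n)
  | _, [] => ∅
  | x, y :: l => insert (Sum.inl y) (insert (Sum.inr s(x, y)) (FF y l))

/-- weight of a path -/
noncomputable def wt (r : Ix n → unitInterval) : V n → List (V n) → ℝ≥0∞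
  | _, [] => 1
  | x, y :: l => ENNReal.ofReal (r (Sum.inl y)) * ENNReal.ofReal (r (Sum.inr s(x, y))) * wt r y l

lemma inl_notMem (x y : V n) (l : List (V n)) (h : y ∉ l) : Sum.inl y ∉ FF x l := by
  induction l generalizing x with
  | nil => simp [FF]
  | cons z l ih =>
    simp only [List.mem_cons, not_or] at h
    simp only [FF, Finset.mem_insert, not_or]
    exact ⟨fun h' => h.1 (Sum.inl_injective h'), by simp, ih z h.2⟩

lemma inr_notMem (x y z : V n) (l : List (V n)) (h : x ∉ z :: l) : Sum.inr s(x, y) ∉ FF z l := by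
  induction l generalizing z with
  | nil => simp [FF]
  | cons u l ih =>
    simp only [List.mem_cons, not_or] at h
    simp only [FF, Finset.mem_insert, not_or]
    refine ⟨by simp, fun h' => ?_, ih u (by simp only [List.mem_cons, not_or]; exact h.2)⟩
    have h1 := Sum.inr_injective h'
    rw [Sym2.eq_iff] at h1
    rcases h1 with ⟨a, _⟩ | ⟨a, _⟩
    · exact h.1 a
    · exact h.2.1 a

lemma prod_FF (r : Ix n → unitInterval) (x : V n) (l : List (V n)) (h : (x :: l).Nodup) :
    ∏ c ∈ FF x l, ENNReal.ofReal (r c : ℝ) = wt r x l := by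
  induction l generalizing x with
  | nil => simp [FF, wt]
  | cons y l ih =>
    have h1 : x ∉ y :: l := (List.nodup_cons.mp h).1
    have h2 : (y :: l).Nodup := (List.nodup_cons.mp h).2
    have h3 : y ∉ l := (List.nodup_cons.mp h2).1
    simp only [FF, wt]
    rw [Finset.prod_insert, Finset.prod_insert, ih y h2, mul_assoc]
    · exact inr_notMem x y y l h1
    · rw [Finset.mem_insert, not_or]
      exact ⟨by simp, inl_notMem y y l h3⟩

/-- total weight of the lists of length `k` -/
noncomputable def Sk (r : Ix n → unitInterval) (k : ℕ) (x : V n) : ℝ≥0∞ :=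
  ∑' l : List (V n), if l.length = k then wt r x l else 0

lemma Sk_zero (r : Ix n → unitInterval) (x : V n) : Sk r 0 x = 1 := by
  unfold Sk
  rw [tsum_eq_single []]
  · simp [wt]
  · intro l hl
    rw [if_neg]
    intro h
    exact hl (List.length_eq_zero_iff.mp h)

lemma Sk_succ (r : Ix n → unitInterval) (k : ℕ) (x : V n) : Sk r (k + 1) x =
    ∑' y : V n, ENNReal.ofReal (r (Sum.inl y)) * ENNReal.ofReal (r (Sum.inr s(x, y))) *
      Sk r k y := by
  unfold Sk
  have hg : Function.Injective (fun q : V n × List (V n) => q.1 :: q.2) := by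
    intro a b h
    simp only [List.cons.injEq] at h
    exact Prod.ext h.1 h.2
  rw [← hg.tsum_eq, ENNReal.tsum_prod']
  · apply tsum_congr
    intro y
    rw [← ENNReal.tsum_mul_left]
    apply tsum_congr
    intro l
    simp only [List.length_cons, Nat.add_right_cancel_iff, wt]
    split_ifs <;> simp
  · intro l hl
    rcases l with _ | ⟨y, l⟩
    · simp at hl
    · exact ⟨(y, l), rfl⟩

lemma Sk_le (r : Ix n → unitInterval) (D : ℝ≥0∞)
    (hD : ∀ x : V n, ∑' y : V n, ENNReal.ofReal (r (Sum.inl y)) *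
      ENNReal.ofReal (r (Sum.inr s(x, y))) ≤ D) (k : ℕ) (x : V n) : Sk r k x ≤ D ^ k := by
  induction k generalizing x with
  | zero => rw [Sk_zero]; simp
  | succ k ih =>
    rw [Sk_succ]
    calc ∑' y : V n, ENNReal.ofReal (r (Sum.inl y)) * ENNReal.ofReal (r (Sum.inr s(x, y))) *
          Sk r k y ≤ ∑' y : V n, ENNReal.ofReal (r (Sum.inl y)) *
          ENNReal.ofReal (r (Sum.inr s(x, y))) * D ^ k := by
          apply ENNReal.tsum_le_tsum
          intro y
          gcongr
          exact ih y
      _ = (∑' y : V n, ENNReal.ofReal (r (Sum.inl y)) * ENNReal.ofReal (r (Sum.inr s(x, y)))) *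
          D ^ k := ENNReal.tsum_mul_right
      _ ≤ D * D ^ k := by gcongr; exact hD x
      _ = D ^ (k + 1) := by rw [pow_succ, mul_comm]

lemma wt_total (r : Ix n → unitInterval) (D : ℝ≥0∞) (hD1 : D < 1)
    (hD : ∀ x : V n, ∑' y : V n, ENNReal.ofReal (r (Sum.inl y)) *
      ENNReal.ofReal (r (Sum.inr s(x, y))) ≤ D) (x : V n) :
    ∑' l : List (V n), wt r x l ≠ ∞ := by
  have h1 : ∑' l : List (V n), wt r x l = ∑' k : ℕ, Sk r k x := by
    unfold Sk
    rw [ENNReal.tsum_comm]
    apply tsum_congr
    intro l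
    rw [tsum_eq_single l.length]
    · simp
    · intro k hk
      rw [if_neg hk.symm]
  rw [h1]
  have h2 : ∑' k : ℕ, Sk r k x ≤ ∑' k : ℕ, D ^ k := ENNReal.tsum_le_tsum (fun k => Sk_le r D hD k x)
  rw [ENNReal.tsum_geometric] at h2
  refine ne_of_lt (lt_of_le_of_lt h2 ?_)
  rw [ENNReal.inv_lt_top]
  exact tsub_pos_of_lt hD1

lemma walk_open {E : Set (Sym2 (V n))} {ω : Cfg n} {x y : V n} (p : (G E ω univ).Walk x y) :
    ∀ c ∈ FF x p.support.tail, ω c = true := by
  induction p with
  | nil => simp [FF]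
  | @cons u v w h p ih =>
    intro c hc
    rw [SimpleGraph.Walk.support_cons, List.tail_cons] at hc
    have hs : p.support = v :: p.support.tail := p.cons_tail_support.symm
    rw [hs] at hc
    simp only [FF, Finset.mem_insert] at hc
    rcases hc with rfl | rfl | hc
    · exact h.2.2.2.2.2.1
    · exact h.2.2.2.2.2.2
    · exact ih c hc

lemma perc_null (r : Ix n → unitInterval) (D : ℝ≥0∞) (hD1 : D < 1)
    (hD : ∀ x : V n, ∑' y : V n, ENNReal.ofReal (r (Sum.inl y)) *
      ENNReal.ofReal (r (Sum.inr s(x, y))) ≤ D) (E : Set (Sym2 (V n))) (x : V n) :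
    pm r (Perc E x) = 0 := by
  classical
  set A : List (V n) → Set (Cfg n) := fun l =>
    if (x :: l).Nodup then {ω | ∀ c ∈ FF x l, ω c = true} else ∅ with hA
  have h1 : ∀ l, pm r (A l) ≤ wt r x l := by
    intro l
    simp only [hA]
    split_ifs with h
    · rw [pm_open, prod_FF r x l h]
    · simp
  have h2 : ∑' l, pm r (A l) ≠ ∞ :=
    ne_top_of_le_ne_top (wt_total r D hD1 hD x) (ENNReal.tsum_le_tsum h1)
  have h3 := ae_finite_setOfPred_mem h2
  rw [ae_iff] at h3
  refine measure_mono_null ?_ h3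
  intro ω hω
  simp only [mem_ofPred_eq]
  have hinf : (cl E ω univ x).Infinite := hω
  have hex : ∀ y : cl E ω univ x, ∃ l : List (V n), ω ∈ A l ∧ (x :: l).getLast (by simp) = y := by
    rintro ⟨y, hy⟩
    obtain ⟨p, hp⟩ := SimpleGraph.Reachable.exists_isPath hy
    have hs : x :: p.support.tail = p.support := p.cons_tail_support
    refine ⟨p.support.tail, ?_, ?_⟩
    · have hn : (x :: p.support.tail).Nodup := by rw [hs]; exact hp.support_nodup
      simp only [hA, if_pos hn]
      exact walk_open p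
    · simp only [hs]
      exact p.getLast_support
  choose f hf1 hf2 using hex
  have hinj : Function.Injective f := by
    intro y z h
    apply Subtype.ext
    rw [← hf2 y, ← hf2 z]
    simp only [h]
  have : Infinite (cl E ω univ x) := hinf.to_subtype
  have h4 : (Set.range f).Infinite := Set.infinite_range_of_injective hinj
  have h5 : {i | ω ∈ A i}.Infinite := by
    refine h4.mono ?_
    rintro _ ⟨y, rfl⟩
    exact hf1 y
  exact h5

end lists

section weights

variable {n : ℕ}

lemma NN_symm {x y : V n} (h : NN x y) : NN y x := by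
  unfold NN at h ⊢
  rw [← h]
  congr 1
  · rw [abs_sub_comm]
  · exact Finset.sum_congr rfl (fun i _ => abs_sub_comm _ _)

lemma isNN_iff {x y : V n} : isNN s(x, y) ↔ NN x y := by
  constructor
  · rintro ⟨u, v, h1, h2⟩
    rw [Sym2.eq_iff] at h1
    rcases h1 with ⟨rfl, rfl⟩ | ⟨rfl, rfl⟩
    · exact h2
    · exact NN_symm h2
  · intro h; exact ⟨x, y, rfl, h⟩

lemma Lg_symm {m : ℕ} {x y : V n} (h : Lg m x y) : Lg m y x := by
  obtain ⟨h1, h2, h3⟩ := h
  refine ⟨h1.symm, fun i => h1 ▸ h2 i, ?_⟩
  omega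

lemma isLg_iff {m : ℕ} {x y : V n} : isLg m s(x, y) ↔ Lg m x y := by
  constructor
  · rintro ⟨u, v, h1, h2⟩
    rw [Sym2.eq_iff] at h1
    rcases h1 with ⟨rfl, rfl⟩ | ⟨rfl, rfl⟩
    · exact h2
    · exact Lg_symm h2
  · intro h; exact ⟨x, y, rfl, h⟩

/-- sign -/
def sg (b : Bool) : ℤ := if b then 1 else -1

/-- neighbours -/
def nb (x : V n) : Bool × Option (Fin n) → V n
  | (b, none) => (x.1 + sg b, x.2)
  | (b, some i) => (x.1, Function.update x.2 i (x.2 i + sg b))

lemma exists_sg {a b : ℤ} (h : |a - b| = 1) : ∃ c : Bool, b = a + sg c := by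
  rcases (abs_eq (by norm_num : (0 : ℤ) ≤ 1)).mp h with h | h
  · exact ⟨false, by simp [sg]; linarith⟩
  · exact ⟨true, by simp [sg]; linarith⟩

lemma NN_mem {x y : V n} (h : NN x y) : ∃ q, nb x q = y := by
  unfold NN at h
  have h0 : 0 ≤ |x.1 - y.1| := abs_nonneg _
  have hs0 : 0 ≤ ∑ i, |x.2 i - y.2 i| := Finset.sum_nonneg (fun i _ => abs_nonneg _)
  by_cases hx : |x.1 - y.1| = 0
  · have h1 : ∑ i, |x.2 i - y.2 i| = 1 := by linarith
    obtain ⟨i, _, hi⟩ : ∃ i ∈ Finset.univ, |x.2 i - y.2 i| ≠ 0 := by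
      by_contra hcon
      push Not at hcon
      rw [Finset.sum_eq_zero hcon] at h1
      norm_num at h1
    have h2 := Finset.add_sum_erase Finset.univ (fun i => |x.2 i - y.2 i|) (Finset.mem_univ i)
    have h3 : 0 ≤ ∑ j ∈ Finset.univ.erase i, |x.2 j - y.2 j| :=
      Finset.sum_nonneg (fun i _ => abs_nonneg _)
    have h4 : 0 ≤ |x.2 i - y.2 i| := abs_nonneg _
    have h5 : |x.2 i - y.2 i| = 1 := by omega
    have h6 : ∑ j ∈ Finset.univ.erase i, |x.2 j - y.2 j| = 0 := by omega
    rw [Finset.sum_eq_zero_iff_of_nonneg (fun i _ => abs_nonneg _)] at h6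
    obtain ⟨c, hc⟩ := exists_sg h5
    refine ⟨(c, some i), ?_⟩
    have hx' : x.1 = y.1 := by
      rw [abs_eq_zero] at hx; linarith
    refine Prod.ext hx' ?_
    funext j
    simp only [nb]
    by_cases hj : j = i
    · subst hj; rw [Function.update_self, hc]
    · rw [Function.update_of_ne hj]
      have := h6 j (Finset.mem_erase.mpr ⟨hj, Finset.mem_univ _⟩)
      rw [abs_eq_zero] at this
      linarith
  · have h1 : |x.1 - y.1| = 1 := by omega
    have h2 : ∑ i, |x.2 i - y.2 i| = 0 := by omega
    rw [Finset.sum_eq_zero_iff_of_nonneg (fun i _ => abs_nonneg _)] at h2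
    obtain ⟨c, hc⟩ := exists_sg h1
    refine ⟨(c, none), ?_⟩
    refine Prod.ext hc.symm ?_
    funext j
    simp only [nb]
    have := h2 j (Finset.mem_univ _)
    rw [abs_eq_zero] at this
    linarith

open scoped Classical in
lemma sum_NN (x : V n) (P : ℝ≥0∞) :
    ∑' y : V n, (if NN x y then P else 0) ≤ (2 * (n + 1) : ℕ) * P := by
  rw [tsum_eq_sum (s := Finset.univ.image (nb x))]
  · calc ∑ y ∈ Finset.univ.image (nb x), (if NN x y then P else 0)
        ≤ ∑ y ∈ Finset.univ.image (nb x), P := by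
          apply Finset.sum_le_sum
          intro y _
          split_ifs
          · exact le_rfl
          · exact zero_le
      _ = ((Finset.univ.image (nb x)).card : ℝ≥0∞) * P := by
          rw [Finset.sum_const, nsmul_eq_mul]
      _ ≤ (2 * (n + 1) : ℕ) * P := by
          gcongr
          refine Finset.card_image_le.trans ?_
          rw [Finset.card_univ, Fintype.card_prod, Fintype.card_bool, Fintype.card_option,
            Fintype.card_fin]
  · intro y hy
    rw [if_neg]
    intro h
    obtain ⟨q, hq⟩ := NN_mem h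
    exact hy (Finset.mem_image.mpr ⟨q, Finset.mem_univ _, hq⟩)

open scoped Classical in
lemma sum_Lg (x : V n) (m : ℕ) (f : ℕ → ℝ≥0∞) :
    ∑' y : V n, (if Lg m x y then f (x.1 - y.1).natAbs else 0) ≤ 2 * ∑' k : ℕ, f (k + 2) := by
  have hg : Function.Injective (fun q : Bool × ℕ => ((x.1 + sg q.1 * (q.2 + 2), x.2) : V n)) := by
    rintro ⟨b, k⟩ ⟨b', k'⟩ h
    have h1 := congrArg Prod.fst h
    simp only at h1
    cases b <;> cases b' <;> simp [sg] at h1 ⊢ <;> omega
  rw [← hg.tsum_eq]
  · calc ∑' q : Bool × ℕ, (if Lg m x ((x.1 + sg q.1 * (q.2 + 2), x.2) : V n) then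
          f (x.1 - ((x.1 + sg q.1 * (q.2 + 2), x.2) : V n).1).natAbs else 0)
        ≤ ∑' q : Bool × ℕ, f (q.2 + 2) := by
          apply ENNReal.tsum_le_tsum
          rintro ⟨b, k⟩
          split_ifs
          · apply le_of_eq
            congr 1
            cases b <;> simp [sg] <;> omega
          · exact zero_le
      _ = ∑' b : Bool, ∑' k : ℕ, f (k + 2) := ENNReal.tsum_prod'
      _ = 2 * ∑' k : ℕ, f (k + 2) := by
          rw [tsum_fintype, Fintype.sum_bool, two_mul]
  · intro y hy
    rw [Function.mem_support] at hy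
    have hL : Lg m x y := by
      by_contra h
      exact hy (if_neg h)
    obtain ⟨h1, _, h3⟩ := hL
    rcases le_or_gt x.1 y.1 with h | h
    · refine ⟨(true, (x.1 - y.1).natAbs - 2), ?_⟩
      refine Prod.ext ?_ h1
      simp only [sg, if_true]
      omega
    · refine ⟨(false, (x.1 - y.1).natAbs - 2), ?_⟩
      refine Prod.ext ?_ h1
      simp only [sg]
      simp
      omega

lemma lrp_nonneg (β : NNReal) (s : ℝ) (k : ℕ) : (0 : ℝ) ≤ lrp β s k := (lrp β s k).2.1

lemma lrp_summable (β : NNReal) (s : ℝ) (hs : 1 < s) :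
    Summable (fun k : ℕ => (lrp β s (k + 2) : ℝ)) := by
  have h1 : Summable (fun k : ℕ => (β : ℝ) * ((k + 2 : ℕ) : ℝ) ^ (-s)) := by
    apply Summable.mul_left
    exact (summable_nat_add_iff 2).mpr (Real.summable_nat_rpow.mpr (by linarith))
  refine Summable.of_nonneg_of_le (fun k => lrp_nonneg β s _) (fun k => ?_) h1
  change 1 - Real.exp (-((β : ℝ) * ((k + 2 : ℕ) : ℝ) ^ (-s))) ≤ _
  linarith [Real.add_one_le_exp (-((β : ℝ) * ((k + 2 : ℕ) : ℝ) ^ (-s)))]

theorem s_low : S_low := by
  classical
  intro n m a p β s hs hlt x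
  have ha : (0 : ℝ) ≤ a := a.2.1
  have hp : (0 : ℝ) ≤ p := p.2.1
  have hL : (0 : ℝ) ≤ ∑' k : ℕ, (lrp β s (k + 2) : ℝ) := tsum_nonneg (fun k => lrp_nonneg β s _)
  set D := ENNReal.ofReal ((a : ℝ) * (2 * (n + 1) * p + 2 * ∑' k : ℕ, (lrp β s (k + 2) : ℝ)))
    with hDdef
  have hD1 : D < 1 := by
    rw [hDdef, ← ENNReal.ofReal_one]
    exact (ENNReal.ofReal_lt_ofReal_iff one_pos).mpr hlt
  have hD : ∀ x : V n, ∑' y : V n, ENNReal.ofReal (prob (n := n) a p β s m (Sum.inl y)) *
      ENNReal.ofReal (prob (n := n) a p β s m (Sum.inr s(x, y))) ≤ D := by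
    intro x
    have h1 : ∀ y : V n, ENNReal.ofReal (prob (n := n) a p β s m (Sum.inr s(x, y))) ≤
        (if NN x y then ENNReal.ofReal p else 0) +
        (if Lg m x y then ENNReal.ofReal (lrp β s (x.1 - y.1).natAbs) else 0) := by
      intro y
      simp only [prob, isNN_iff, isLg_iff]
      by_cases h2 : NN x y
      · simp [h2]
      · by_cases h3 : Lg m x y
        · simp only [h2, h3, if_true, if_false, zero_add]
          exact le_rfl
        · simp [h2, h3]
    calc ∑' y : V n, ENNReal.ofReal (prob (n := n) a p β s m (Sum.inl y)) *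
          ENNReal.ofReal (prob (n := n) a p β s m (Sum.inr s(x, y)))
        ≤ ∑' y : V n, ENNReal.ofReal a * ((if NN x y then ENNReal.ofReal p else 0) +
          (if Lg m x y then ENNReal.ofReal (lrp β s (x.1 - y.1).natAbs) else 0)) := by
          apply ENNReal.tsum_le_tsum
          intro y
          have : prob (n := n) a p β s m (Sum.inl y) = a := rfl
          rw [this]
          gcongr
          exact h1 y
      _ = ENNReal.ofReal a * (∑' y : V n, (if NN x y then ENNReal.ofReal (p : ℝ) else 0) +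
          ∑' y : V n, (if Lg m x y then ENNReal.ofReal (lrp β s (x.1 - y.1).natAbs : ℝ) else 0)) := by
          rw [ENNReal.tsum_mul_left, ENNReal.tsum_add]
      _ ≤ ENNReal.ofReal a * ((2 * (n + 1) : ℕ) * ENNReal.ofReal (p : ℝ) +
          2 * ∑' k : ℕ, ENNReal.ofReal (lrp β s (k + 2) : ℝ)) := by
          gcongr
          · exact sum_NN x _
          · exact sum_Lg x m (fun k => ENNReal.ofReal (lrp β s k : ℝ))
      _ = D := by
          have e1 : ENNReal.ofReal (2 * ∑' k : ℕ, (lrp β s (k + 2) : ℝ)) =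
              2 * ∑' k : ℕ, ENNReal.ofReal (lrp β s (k + 2) : ℝ) := by
            rw [ENNReal.ofReal_mul (by norm_num), ENNReal.ofReal_tsum_of_nonneg
              (fun k => lrp_nonneg β s _) (lrp_summable β s hs)]
            simp
          have e2 : ENNReal.ofReal (2 * ((n : ℝ) + 1) * p) =
              (2 * (n + 1) : ℕ) * ENNReal.ofReal (p : ℝ) := by
            rw [ENNReal.ofReal_mul (by positivity), ← ENNReal.ofReal_natCast]
            push_cast
            rfl
          rw [hDdef, ENNReal.ofReal_mul ha, ENNReal.ofReal_add (by positivity) (by positivity),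
            e1, e2]
  have := perc_null (prob (n := n) a p β s m) D hD1 hD (EdI m) x
  unfold Measure.real
  rw [this]; simp

end weights

end Pool.Agent.W376.PC
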