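import Pool.Agent.W783.Perc.Stmts2
import Pool.Agent.W402.PC.Simon

set_option autoImplicit false

open MeasureTheory Set

/-!
Simon-Lieb inequality for site percolation (all nearest-neighbour bonds open).
-/

namespace Pool.Agent.W376.PC.SimonS

open Pool.Agent.W783.PC
open Pool.Agent.W402.PC (pm_coord bern_true reach_iff reach_mono reach_mem last_exit dep_meas
  fin_pairs prob_summable reach_univ)

noncomputable section

/-- The event that `x` is open and connected to `y` in `R`. -/
def QE {n : ℕ} (E : Set (Sym2 (V n))) (R : Set (V n)) (x y : V n) : Set (Cfg n) :=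
  {ω | ω (Sum.inl x) = true ∧ (G E ω R).Reachable x y}

/-- Its probability. -/
def Q {n : ℕ} (r : Ix n → unitInterval) (E : Set (Sym2 (V n))) (R : Set (V n)) (x y : V n) : ℝ :=
  (pm r).real (QE E R x y)

lemma Q_nonneg {n : ℕ} (r : Ix n → unitInterval) (E : Set (Sym2 (V n))) (R : Set (V n))
    (x y : V n) : 0 ≤ Q r E R x y := measureReal_nonneg

lemma Q_le_one {n : ℕ} (r : Ix n → unitInterval) (E : Set (Sym2 (V n))) (R : Set (V n))
    (x y : V n) : Q r E R x y ≤ 1 := measureReal_le_one

lemma Q_mono {n : ℕ} (r : Ix n → unitInterval) (E : Set (Sym2 (V n))) {R R' : Set (V n)}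
    (h : R ⊆ R') (x y : V n) : Q r E R x y ≤ Q r E R' x y :=
  measureReal_mono (fun _ hω => ⟨hω.1, reach_mono h hω.2⟩)

lemma Q_zero {n : ℕ} (r : Ix n → unitInterval) (E : Set (Sym2 (V n))) {R : Set (V n)}
    {x y : V n} (hx : x ∈ R) (hy : y ∉ R) : Q r E R x y = 0 := by
  have : QE E R x y = ∅ := by
    ext ω
    simp only [mem_empty_iff_false, iff_false]
    intro h
    rcases reach_mem h.2 with rfl | h
    · exact hy hx
    · exact hy h.2
  rw [Q, this, measureReal_empty]

/-- The coordinates inside `R`. -/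
def In {n : ℕ} (R : Set (V n)) : Set (Ix n) :=
  {c | (∃ v ∈ R, c = Sum.inl v) ∨ ∃ a ∈ R, ∃ b ∈ R, c = Sum.inr s(a, b)}

/-- The sites of `R'` and the bonds between `R` and `R'`. -/
def Btw {n : ℕ} (R R' : Set (V n)) : Set (Ix n) :=
  {c | (∃ v ∈ R', c = Sum.inl v) ∨ ∃ a ∈ R, ∃ b ∈ R', c = Sum.inr s(a, b)}

lemma Btw_fin {n : ℕ} (R R' : Set (V n)) (hR : R.Finite) (hR' : R'.Finite) :
    (Btw R R').Finite := by
  apply ((hR'.image (fun v => (Sum.inl v : Ix n))).union (fin_pairs R R' hR hR')).subset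
  rintro c (⟨v, hv, rfl⟩ | h)
  · exact Or.inl ⟨v, hv, rfl⟩
  · exact Or.inr h

lemma In_fin {n : ℕ} (R : Set (V n)) (hR : R.Finite) : (In R).Finite := Btw_fin R R hR hR

lemma mem_In_inl {n : ℕ} {R : Set (V n)} {v : V n} (h : Sum.inl v ∈ In R) : v ∈ R := by
  rcases h with ⟨v', hv', h⟩ | ⟨a, ha, b, hb, h⟩
  · rw [Sum.inl_injective h]; exact hv'
  · simp at h

lemma mem_Btw_inr {n : ℕ} {R R' : Set (V n)} {y z : V n} (h : Sum.inr s(y, z) ∈ Btw R R') :
    (y ∈ R ∧ z ∈ R') ∨ (z ∈ R ∧ y ∈ R') := by
  rcases h with ⟨v', hv', h⟩ | ⟨a, ha, b, hb, h⟩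
  · simp at h
  · have h' : s(y, z) = s(a, b) := Sum.inr_injective h
    rw [Sym2.eq_iff] at h'
    rcases h' with ⟨rfl, rfl⟩ | ⟨rfl, rfl⟩
    · exact Or.inl ⟨ha, hb⟩
    · exact Or.inr ⟨ha, hb⟩

lemma mem_In_inr {n : ℕ} {R : Set (V n)} {y z : V n} (h : Sum.inr s(y, z) ∈ In R) :
    y ∈ R ∧ z ∈ R := by
  have h' : Sum.inr s(y, z) ∈ Btw R R := h
  rcases mem_Btw_inr h' with h | h
  · exact h
  · exact ⟨h.2, h.1⟩

lemma reach_depS {n : ℕ} (E : Set (Sym2 (V n))) (R : Set (V n)) (x y : V n) :
    DepOn {ω : Cfg n | (G E ω R).Reachable x y} (In R) := by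
  have key : ∀ ω ω' : Cfg n, (∀ c ∈ In R, ω c = ω' c) →
      (G E ω R).Reachable x y → (G E ω' R).Reachable x y := by
    intro ω ω' h hr
    apply hr.mono
    intro a b hab
    refine ⟨hab.1, hab.2.1, hab.2.2.1, hab.2.2.2.1, ?_, ?_, ?_⟩
    · rw [← h _ (Or.inl ⟨a, hab.2.1, rfl⟩)]; exact hab.2.2.2.2.1
    · rw [← h _ (Or.inl ⟨b, hab.2.2.1, rfl⟩)]; exact hab.2.2.2.2.2.1
    · rw [← h _ (Or.inr ⟨a, hab.2.1, b, hab.2.2.1, rfl⟩)]; exact hab.2.2.2.2.2.2
  intro ω ω' h
  exact ⟨key ω ω' h, key ω' ω (fun c hc => (h c hc).symm)⟩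

lemma site_dep {n : ℕ} (x : V n) : DepOn {ω : Cfg n | ω (Sum.inl x) = true} {Sum.inl x} := by
  intro ω ω' h
  show ω _ = true ↔ ω' _ = true
  rw [h _ rfl]

lemma QE_dep {n : ℕ} (E : Set (Sym2 (V n))) (R : Set (V n)) (x y : V n) (hx : x ∈ R) :
    DepOn (QE E R x y) (In R) := by
  intro ω ω' h
  exact and_congr (site_dep x ω ω' (fun c hc => h c (Or.inl ⟨x, hx, hc⟩)))
    (reach_depS E R x y ω ω' h)

lemma reach_inc {n : ℕ} {E : Set (Sym2 (V n))} {R : Set (V n)} {x y : V n} {ω ω' : Cfg n}
    (h : ∀ c, ω c = true → ω' c = true) (hr : (G E ω R).Reachable x y) :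
    (G E ω' R).Reachable x y := by
  apply hr.mono
  intro a b hab
  exact ⟨hab.1, hab.2.1, hab.2.2.1, hab.2.2.2.1, h _ hab.2.2.2.2.1, h _ hab.2.2.2.2.2.1,
    h _ hab.2.2.2.2.2.2⟩

lemma QE_inc {n : ℕ} (E : Set (Sym2 (V n))) (R : Set (V n)) (x y : V n) : Inc (QE E R x y) :=
  fun _ _ h hω => ⟨h _ hω.1, reach_inc h hω.2⟩

/-- `C` is open and connected inside. -/
def A1 {n : ℕ} (E : Set (Sym2 (V n))) (x : V n) (C : Set (V n)) : Set (Cfg n) :=
  {ω | ω (Sum.inl x) = true ∧ ∀ v ∈ C, (G E ω C).Reachable x v}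

/-- no open bond leads from `C` to an open vertex of `T \ C`. -/
def A2 {n : ℕ} (E : Set (Sym2 (V n))) (T C : Set (V n)) : Set (Cfg n) :=
  {ω | ∀ v ∈ T \ C, ∀ y ∈ C, s(y, v) ∈ E → ¬ (ω (Sum.inl v) = true ∧ ω (Sum.inr s(y, v)) = true)}

lemma A1_dep {n : ℕ} (E : Set (Sym2 (V n))) (x : V n) (C : Set (V n)) (hx : x ∈ C) :
    DepOn (A1 E x C) (In C) := by
  intro ω ω' h
  refine and_congr (site_dep x ω ω' (fun c hc => h c (Or.inl ⟨x, hx, hc⟩))) ?_
  exact forall₂_congr (fun v _ => reach_depS E C x v ω ω' h)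

lemma A2_dep {n : ℕ} (E : Set (Sym2 (V n))) (T C : Set (V n)) :
    DepOn (A2 E T C) (Btw C (T \ C)) := by
  intro ω ω' h
  refine forall₂_congr (fun v hv => forall₂_congr (fun y hy => ?_))
  rw [h _ (Or.inl ⟨v, hv, rfl⟩), h _ (Or.inr ⟨y, hy, v, hv, rfl⟩)]

/-- The cluster of `x` in `T` is `C` (and `x` is open). -/
lemma cluster_iff {n : ℕ} {E : Set (Sym2 (V n))} {T C : Set (V n)} {x : V n} (hxC : x ∈ C)
    (hCT : C ⊆ T) (ω : Cfg n) :
    (ω (Sum.inl x) = true ∧ {v | (G E ω T).Reachable x v} = C) ↔ ω ∈ A1 E x C ∩ A2 E T C := by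
  constructor
  · rintro ⟨hx, hC⟩
    have hC' : ∀ v, (G E ω T).Reachable x v ↔ v ∈ C := by
      intro v
      rw [← hC]
      rfl
    have hop : ∀ v ∈ C, ω (Sum.inl v) = true := by
      intro v hv
      have h := (hC' v).2 hv
      rw [reach_iff] at h
      induction h with
      | refl => exact hx
      | tail _ hab _ => exact hab.2.2.2.2.2.1
    refine ⟨⟨hx, ?_⟩, ?_⟩
    · intro v hv
      have h := (hC' v).2 hv
      rw [reach_iff] at h
      clear hv
      induction h with
      | refl => exact SimpleGraph.Reachable.refl _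
      | @tail a b hxa hab ih =>
        refine ih.trans (SimpleGraph.Adj.reachable ?_)
        exact ⟨hab.1, (hC' a).1 (reach_iff.2 hxa),
          (hC' b).1 ((reach_iff.2 hxa).trans hab.reachable), hab.2.2.2⟩
    · intro v hv y hy hE hvy
      apply hv.2
      rw [← hC']
      have hne : y ≠ v := by
        rintro rfl
        exact hv.2 hy
      exact ((hC' y).2 hy).trans (SimpleGraph.Adj.reachable
        ⟨hne, hCT hy, hv.1, hE, hop y hy, hvy.1, hvy.2⟩)
  · rintro ⟨⟨hx, h1⟩, h2⟩
    refine ⟨hx, ?_⟩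
    ext v
    constructor
    · intro h
      have h' : (G E ω T).Reachable x v := h
      rw [reach_iff] at h'
      clear h
      induction h' with
      | refl => exact hxC
      | @tail a b hxa hab ih =>
        by_contra hb
        exact h2 b ⟨hab.2.2.1, hb⟩ a ih hab.2.2.2.1 ⟨hab.2.2.2.2.2.1, hab.2.2.2.2.2.2⟩
    · intro hv
      exact reach_mono hCT (h1 v hv)

/-- A decreasing and an increasing event are negatively correlated. -/
lemma neg_corr (hH : S_harris) (h2 : S_depmeas) {ι : Type} (r : ι → unitInterval)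
    {A B : Set (ι → Bool)} {D D' : Set ι} (hD : D.Finite) (hD' : D'.Finite)
    (hA : DepOn A D) (hB : DepOn B D') (hAc : Inc Aᶜ) (hBi : Inc B) :
    (pm r).real (A ∩ B) ≤ (pm r).real A * (pm r).real B := by
  classical
  have hAm : MeasurableSet A := dep_meas h2 hD hA
  have hBm : MeasurableSet B := dep_meas h2 hD' hB
  have h := hH ι r (hD.toFinset ∪ hD'.toFinset) Aᶜ B
    (fun ω ω' h => not_congr (hA ω ω' (fun c hc => h c (by simp [hc]))))
    (fun ω ω' h => hB ω ω' (fun c hc => h c (by simp [hc]))) hAc hBi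
  have h3 : (pm r).real Aᶜ = 1 - (pm r).real A := probReal_compl_eq_one_sub hAm
  have h4 : (pm r).real (B ∩ A) + (pm r).real (B \ A) = (pm r).real B :=
    measureReal_inter_add_sdiff hAm
  have h5 : Aᶜ ∩ B = B \ A := by
    ext ω
    simp only [mem_inter_iff, mem_compl_iff, mem_sdiff]
    tauto
  rw [h5, h3] at h
  rw [inter_comm A B]
  nlinarith

open scoped Classical in
/-- The one-step inequality. -/
lemma step {n : ℕ} (h1 : S_indep) (h2 : S_depmeas) (hH : S_harris) (r : Ix n → unitInterval)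
    (E : Set (Sym2 (V n))) (T R : Finset (V n)) (x w : V n) (hx : x ∈ T) :
    Q r E R x w ≤ Q r E T x w + ∑ y ∈ T, ∑ z ∈ R \ T,
      Q r E T x y * (r (Sum.inr s(y, z)) : ℝ) * Q r E R z w := by
  set CEv : Finset (V n) → Set (Cfg n) := fun C =>
    A1 E x (C : Set (V n)) ∩ A2 E (T : Set (V n)) (C : Set (V n)) with hCEv
  set B : V n → V n → Finset (V n) → Set (Cfg n) := fun y z C =>
    A1 E x (C : Set (V n)) ∩ ({ω | ω (Sum.inr s(y, z)) = true} ∩
      (A2 E (T : Set (V n)) (C : Set (V n)) ∩ QE E ((R : Set (V n)) \ C) z w)) with hB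
  have hsub : QE E (R : Set (V n)) x w ⊆ QE E (T : Set (V n)) x w ∪
        ⋃ y ∈ T, ⋃ z ∈ R \ T, ⋃ C ∈ T.powerset.filter (fun C => x ∈ C ∧ y ∈ C), B y z C := by
    intro ω hω
    obtain ⟨hxo, hω⟩ := hω
    by_cases hw : (G E ω (T : Set (V n))).Reachable x w
    · exact Or.inl ⟨hxo, hw⟩
    · right
      obtain ⟨y, z, hy, hz, hyz, hr⟩ := last_exit hω hw
      have hyT : y ∈ T := by
        rcases reach_mem hy with rfl | h
        · exact hx
        · exact_mod_cast h.2
      have hzT : z ∉ T := by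
        intro hzT
        apply hz
        exact hy.trans (SimpleGraph.Adj.reachable
          ⟨hyz.1, by exact_mod_cast hyT, by exact_mod_cast hzT, hyz.2.2.2⟩)
      have hzR : z ∈ R := by exact_mod_cast hyz.2.2.1
      have hsubT : {v | (G E ω (T : Set (V n))).Reachable x v} ⊆ (T : Set (V n)) := by
        intro v hv
        rcases reach_mem hv with rfl | h
        · exact_mod_cast hx
        · exact h.2
      have hfin : {v | (G E ω (T : Set (V n))).Reachable x v}.Finite :=
        T.finite_toSet.subset hsubT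
      have hcl := (cluster_iff (E := E) (T := (T : Set (V n)))
        (C := {v | (G E ω (T : Set (V n))).Reachable x v}) (x := x)
        (SimpleGraph.Reachable.refl _) hsubT ω).1 ⟨hxo, rfl⟩
      simp only [mem_iUnion]
      refine ⟨y, hyT, z, by simp [hzR, hzT], hfin.toFinset, ?_, ?_⟩
      · simp only [Finset.mem_filter, Finset.mem_powerset]
        refine ⟨?_, ?_, ?_⟩
        · intro v hv
          rw [Set.Finite.mem_toFinset] at hv
          exact_mod_cast hsubT hv
        · rw [Set.Finite.mem_toFinset]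
          exact SimpleGraph.Reachable.refl _
        · rw [Set.Finite.mem_toFinset]
          exact hy
      · simp only [hB, Set.Finite.coe_toFinset]
        exact ⟨hcl.1, hyz.2.2.2.2.2.2, hcl.2, hyz.2.2.2.2.2.1, hr⟩
  have hA1m : ∀ C : Finset (V n), x ∈ C → MeasurableSet (A1 E x (C : Set (V n))) := fun C hC =>
    dep_meas h2 (In_fin _ C.finite_toSet) (A1_dep E x C (by exact_mod_cast hC))
  have hA2m : ∀ C : Finset (V n), MeasurableSet (A2 E (T : Set (V n)) (C : Set (V n))) := fun C =>
    dep_meas h2 (Btw_fin _ _ C.finite_toSet (T.finite_toSet.subset sdiff_subset))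
      (A2_dep E (T : Set (V n)) (C : Set (V n)))
  have hd12 : ∀ C : Finset (V n), Disjoint (In (C : Set (V n)))
      (Btw (C : Set (V n)) ((T : Set (V n)) \ C)) := by
    intro C
    rw [Set.disjoint_left]
    rintro c (⟨v, hv, rfl⟩ | ⟨a, ha, b, hb, rfl⟩) (⟨v', hv', h⟩ | ⟨a', ha', b', hb', h⟩)
    · rw [Sum.inl_injective h] at hv
      exact hv'.2 hv
    · simp at h
    · simp at h
    · have h3 : s(a, b) = s(a', b') := Sum.inr_injective h
      have hz' : b' ∈ s(a, b) := by
        rw [h3]
        exact Sym2.mem_mk_right _ _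
      rw [Sym2.mem_iff] at hz'
      rcases hz' with rfl | rfl
      · exact hb'.2 ha
      · exact hb'.2 hb
  have hCE : ∀ C : Finset (V n), x ∈ C → (pm r).real (CEv C) =
      (pm r).real (A1 E x (C : Set (V n))) *
        (pm r).real (A2 E (T : Set (V n)) (C : Set (V n))) := by
    intro C hC
    rw [Measure.real, Measure.real, Measure.real, ← ENNReal.toReal_mul]
    congr 1
    exact h1 _ r _ _ _ _ (A1_dep E x C (by exact_mod_cast hC)) (A2_dep E _ _) (hd12 C)
      (hA1m C hC) (hA2m C)
  have hBval : ∀ y ∈ T, ∀ z ∈ R \ T, ∀ C ∈ T.powerset.filter (fun C => x ∈ C ∧ y ∈ C),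
      (pm r).real (B y z C) ≤ (pm r).real (CEv C) *
        ((r (Sum.inr s(y, z)) : ℝ) * Q r E R z w) := by
    intro y hy z hz C hC
    simp only [Finset.mem_filter, Finset.mem_powerset] at hC
    obtain ⟨hCT, hxC, hyC⟩ := hC
    simp only [Finset.mem_sdiff] at hz
    have hzC : z ∉ C := fun h => hz.2 (hCT h)
    have hzRC : z ∈ (R : Set (V n)) \ C := ⟨by exact_mod_cast hz.1, by exact_mod_cast hzC⟩
    have hd1 := A1_dep E x (C : Set (V n)) (by exact_mod_cast hxC)
    have hd2 := A2_dep E (T : Set (V n)) (C : Set (V n))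
    have hd3 := QE_dep E ((R : Set (V n)) \ C) z w hzRC
    have hfD2 : (Btw (C : Set (V n)) ((T : Set (V n)) \ C)).Finite :=
      Btw_fin _ _ C.finite_toSet (T.finite_toSet.subset sdiff_subset)
    have hfD3 : (In ((R : Set (V n)) \ C)).Finite := In_fin _ (R.finite_toSet.subset sdiff_subset)
    have hOd : DepOn {ω : Cfg n | ω (Sum.inr s(y, z)) = true} {Sum.inr s(y, z)} := by
      intro ω ω' h
      show ω _ = true ↔ ω' _ = true
      rw [h _ rfl]
    have hOm := dep_meas h2 (Set.finite_singleton _) hOd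
    have hQm := dep_meas h2 hfD3 hd3
    have hd23 : DepOn (A2 E (T : Set (V n)) (C : Set (V n)) ∩ QE E ((R : Set (V n)) \ C) z w)
        (Btw (C : Set (V n)) ((T : Set (V n)) \ C) ∪ In ((R : Set (V n)) \ C)) := by
      intro ω ω' h
      exact and_congr (hd2 ω ω' (fun c hc => h c (Or.inl hc)))
        (hd3 ω ω' (fun c hc => h c (Or.inr hc)))
    have hdO23 : DepOn ({ω : Cfg n | ω (Sum.inr s(y, z)) = true} ∩
        (A2 E (T : Set (V n)) (C : Set (V n)) ∩ QE E ((R : Set (V n)) \ C) z w))
        ({Sum.inr s(y, z)} ∪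
          (Btw (C : Set (V n)) ((T : Set (V n)) \ C) ∪ In ((R : Set (V n)) \ C))) := by
      intro ω ω' h
      exact and_congr (hOd ω ω' (fun c hc => h c (Or.inl hc)))
        (hd23 ω ω' (fun c hc => h c (Or.inr hc)))
    have hA2C := hA2m C
    have e2 : pm r ({ω : Cfg n | ω (Sum.inr s(y, z)) = true} ∩
        (A2 E (T : Set (V n)) (C : Set (V n)) ∩ QE E ((R : Set (V n)) \ C) z w)) =
        pm r {ω : Cfg n | ω (Sum.inr s(y, z)) = true} *
          pm r (A2 E (T : Set (V n)) (C : Set (V n)) ∩ QE E ((R : Set (V n)) \ C) z w) := by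
      refine h1 _ r _ _ _ _ hOd hd23 ?_ hOm (hA2C.inter hQm)
      rw [Set.disjoint_left]
      rintro c rfl (h | h)
      · rcases mem_Btw_inr h with ⟨_, h4⟩ | ⟨h4, _⟩
        · exact hz.2 (by exact_mod_cast h4.1)
        · exact hzC (by exact_mod_cast h4)
      · exact (mem_In_inr h).1.2 (by exact_mod_cast hyC)
    have e1 : pm r (B y z C) = pm r (A1 E x (C : Set (V n))) *
        pm r ({ω : Cfg n | ω (Sum.inr s(y, z)) = true} ∩
        (A2 E (T : Set (V n)) (C : Set (V n)) ∩ QE E ((R : Set (V n)) \ C) z w)) := by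
      refine h1 _ r _ _ _ _ hd1 hdO23 ?_ (hA1m C hxC) (hOm.inter (hA2C.inter hQm))
      rw [Set.disjoint_left]
      rintro c hc (h | h | h)
      · rw [h] at hc
        exact hzC (by exact_mod_cast (mem_In_inr hc).2)
      · exact (Set.disjoint_left.1 (hd12 C)) hc h
      · rcases hc with ⟨v, hv, rfl⟩ | ⟨a, ha, b, hb, rfl⟩
        · exact (mem_In_inl h).2 hv
        · exact (mem_In_inr h).1.2 ha
    have e4 : (pm r).real (A2 E (T : Set (V n)) (C : Set (V n)) ∩
        QE E ((R : Set (V n)) \ C) z w) ≤ (pm r).real (A2 E (T : Set (V n)) (C : Set (V n))) *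
          Q r E ((R : Set (V n)) \ C) z w := by
      refine neg_corr hH h2 r hfD2 hfD3 hd2 hd3 ?_ (QE_inc _ _ _ _)
      intro ω ω' h hω hω'
      apply hω
      intro v hv y' hy' hE' hvy
      exact hω' v hv y' hy' hE' ⟨h _ hvy.1, h _ hvy.2⟩
    have e3 : (pm r).real (B y z C) = (pm r).real (A1 E x (C : Set (V n))) *
        ((r (Sum.inr s(y, z)) : ℝ) * (pm r).real (A2 E (T : Set (V n)) (C : Set (V n)) ∩
        QE E ((R : Set (V n)) \ C) z w)) := by
      rw [Measure.real, e1, e2, pm_coord, bern_true, ENNReal.toReal_mul, ENNReal.toReal_mul,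
        ENNReal.toReal_ofReal (r _).2.1]
      rfl
    rw [e3, hCE C hxC]
    have e5 := Q_mono r E (R := (R : Set (V n)) \ C) (R' := R) sdiff_subset z w
    have h0 := (r (Sum.inr s(y, z))).2.1
    have h00 : 0 ≤ (pm r).real (A1 E x (C : Set (V n))) := measureReal_nonneg
    have h01 : 0 ≤ (pm r).real (A2 E (T : Set (V n)) (C : Set (V n))) := measureReal_nonneg
    calc (pm r).real (A1 E x (C : Set (V n))) *
        ((r (Sum.inr s(y, z)) : ℝ) * (pm r).real (A2 E (T : Set (V n)) (C : Set (V n)) ∩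
        QE E ((R : Set (V n)) \ C) z w))
        ≤ (pm r).real (A1 E x (C : Set (V n))) * ((r (Sum.inr s(y, z)) : ℝ) *
          ((pm r).real (A2 E (T : Set (V n)) (C : Set (V n))) * Q r E R z w)) := by
          refine mul_le_mul_of_nonneg_left (mul_le_mul_of_nonneg_left ?_ h0) h00
          exact e4.trans (mul_le_mul_of_nonneg_left e5 h01)
      _ = _ := by ring
  have hsum : ∀ y ∈ T, ∑ C ∈ T.powerset.filter (fun C => x ∈ C ∧ y ∈ C),
      (pm r).real (CEv C) ≤ Q r E T x y := by
    intro y hy
    have hmem : ∀ C ∈ T.powerset.filter (fun C => x ∈ C ∧ y ∈ C), ∀ ω ∈ CEv C,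
        ω (Sum.inl x) = true ∧ {v | (G E ω (T : Set (V n))).Reachable x v} = (C : Set (V n)) := by
      intro C hC ω hω
      simp only [Finset.mem_filter, Finset.mem_powerset] at hC
      exact (cluster_iff (by exact_mod_cast hC.2.1) (by exact_mod_cast hC.1) ω).2 hω
    rw [← measureReal_biUnion_finset]
    · apply measureReal_mono
      · intro ω hω
        simp only [mem_iUnion] at hω
        obtain ⟨C, hC, hω⟩ := hω
        have h3 := hmem C hC ω hω
        simp only [Finset.mem_filter, Finset.mem_powerset] at hC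
        have h4 : y ∈ (C : Set (V n)) := by exact_mod_cast hC.2.2
        rw [← h3.2] at h4
        exact ⟨h3.1, h4⟩
      · exact measure_ne_top _ _
    · intro C hC C' hC' hne
      rw [Function.onFun, Set.disjoint_left]
      intro ω h3 h4
      apply hne
      have h5 : (C : Set (V n)) = C' := (hmem C hC ω h3).2.symm.trans (hmem C' hC' ω h4).2
      exact_mod_cast h5
    · intro C hC
      simp only [Finset.mem_filter, Finset.mem_powerset] at hC
      exact (hA1m C hC.2.1).inter (hA2m C)
  calc Q r E R x w ≤ (pm r).real (QE E (T : Set (V n)) x w ∪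
        ⋃ y ∈ T, ⋃ z ∈ R \ T, ⋃ C ∈ T.powerset.filter (fun C => x ∈ C ∧ y ∈ C), B y z C) :=
        measureReal_mono hsub
    _ ≤ Q r E T x w + (pm r).real (⋃ y ∈ T, ⋃ z ∈ R \ T,
          ⋃ C ∈ T.powerset.filter (fun C => x ∈ C ∧ y ∈ C), B y z C) := measureReal_union_le _ _
    _ ≤ Q r E T x w + ∑ y ∈ T, ∑ z ∈ R \ T,
          ∑ C ∈ T.powerset.filter (fun C => x ∈ C ∧ y ∈ C), (pm r).real (B y z C) := by
        gcongr
        refine (measureReal_biUnion_finset_le _ _).trans ?_
        apply Finset.sum_le_sum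
        intro y _
        refine (measureReal_biUnion_finset_le _ _).trans ?_
        apply Finset.sum_le_sum
        intro z _
        exact measureReal_biUnion_finset_le _ _
    _ ≤ Q r E T x w + ∑ y ∈ T, ∑ z ∈ R \ T,
          Q r E T x y * (r (Sum.inr s(y, z)) : ℝ) * Q r E R z w := by
        gcongr with y hy z hz
        refine (Finset.sum_le_sum (hBval y hy z hz)).trans ?_
        rw [← Finset.sum_mul, mul_assoc]
        have h0 := (r (Sum.inr s(y, z))).2.1
        have h00 := Q_nonneg r E R z w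
        have := hsum y hy
        gcongr

open scoped Classical in
/-- Bound for finite regions. -/
lemma region_bound {n m : ℕ} (h1 : S_indep) (h2 : S_depmeas) (hH : S_harris) (a : unitInterval)
    (β : NNReal)
    (s : ℝ) (hs : 1 < s) (S : Finset (V n)) (ρ : ℝ) (h0 : 0 ∈ S) (hρ : ρ < 1)
    (hphi : ∀ x : V n, phiS a β s m (S.map (addRightEmbedding x)) x ≤ ρ) (R : Finset (V n))
    (x : V n) (hx : x ∈ R) :
    ∑ w ∈ R, Q (prob a 1 β s m) (EdI m) (R : Set (V n)) x w ≤ S.card / (1 - ρ) := by
  set r : Ix n → unitInterval := prob a 1 β s m with hr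
  set X : V n → ℝ := fun x => ∑ w ∈ R, Q r (EdI m) (R : Set (V n)) x w with hX
  have hX0 : ∀ z, 0 ≤ X z := fun z => Finset.sum_nonneg (fun w _ => Q_nonneg _ _ _ _ _)
  set M : ℝ := R.sup' ⟨x, hx⟩ X with hM
  have hXM : ∀ z ∈ R, X z ≤ M := fun z hz => Finset.le_sup' X hz
  have hM0 : 0 ≤ M := (hX0 x).trans (hXM x hx)
  have hstep : ∀ z ∈ R, X z ≤ S.card + ρ * M := by
    intro z hz
    set T : Finset (V n) := S.map (addRightEmbedding z) with hT
    have hzT : z ∈ T := by
      rw [hT, Finset.mem_map]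
      exact ⟨0, h0, by simp⟩
    have hcard : T.card = S.card := by rw [hT, Finset.card_map]
    have e1 : X z ≤ ∑ w ∈ R, (Q r (EdI m) T z w + ∑ y ∈ T, ∑ v ∈ R \ T,
        Q r (EdI m) T z y * (r (Sum.inr s(y, v)) : ℝ) * Q r (EdI m) R v w) :=
      Finset.sum_le_sum (fun w _ => step h1 h2 hH r (EdI m) T R z w hzT)
    have e2 : ∑ w ∈ R, Q r (EdI m) T z w ≤ S.card := by
      rw [← hcard]
      calc ∑ w ∈ R, Q r (EdI m) T z w ≤ ∑ w ∈ R, if w ∈ T then (1 : ℝ) else 0 := by
            apply Finset.sum_le_sum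
            intro w _
            split_ifs with hw
            · exact Q_le_one _ _ _ _ _
            · rw [Q_zero r (EdI m) (by exact_mod_cast hzT) (by exact_mod_cast hw)]
        _ = ((R.filter (fun w => w ∈ T)).card : ℝ) := by
            rw [Finset.sum_ite, Finset.sum_const, Finset.sum_const_zero, add_zero, nsmul_eq_mul,
              mul_one]
        _ ≤ T.card := by
            have : R.filter (fun w => w ∈ T) ⊆ T := by
              intro w hw
              exact (Finset.mem_filter.1 hw).2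
            exact_mod_cast Finset.card_le_card this
    have e3 : ∑ w ∈ R, ∑ y ∈ T, ∑ v ∈ R \ T,
        Q r (EdI m) T z y * (r (Sum.inr s(y, v)) : ℝ) * Q r (EdI m) R v w ≤ ρ * M := by
      calc ∑ w ∈ R, ∑ y ∈ T, ∑ v ∈ R \ T,
          Q r (EdI m) T z y * (r (Sum.inr s(y, v)) : ℝ) * Q r (EdI m) R v w
          = ∑ y ∈ T, ∑ v ∈ R \ T, Q r (EdI m) T z y * (r (Sum.inr s(y, v)) : ℝ) * X v := by
            rw [Finset.sum_comm]
            apply Finset.sum_congr rfl
            intro y _
            rw [Finset.sum_comm]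
            apply Finset.sum_congr rfl
            intro v _
            rw [← Finset.mul_sum]
        _ ≤ ∑ y ∈ T, ∑ v ∈ R \ T, Q r (EdI m) T z y * (r (Sum.inr s(y, v)) : ℝ) * M := by
            apply Finset.sum_le_sum
            intro y _
            apply Finset.sum_le_sum
            intro v hv
            have h3 := hXM v (Finset.mem_sdiff.1 hv).1
            have h4 := Q_nonneg r (EdI m) T z y
            have h5 := (r (Sum.inr s(y, v))).2.1
            gcongr
        _ = (∑ y ∈ T, Q r (EdI m) T z y * ∑ v ∈ R \ T, (r (Sum.inr s(y, v)) : ℝ)) * M := by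
            rw [Finset.sum_mul]
            apply Finset.sum_congr rfl
            intro y _
            rw [Finset.mul_sum, Finset.sum_mul]
        _ ≤ ρ * M := by
            apply mul_le_mul_of_nonneg_right _ hM0
            refine le_trans ?_ (hphi z)
            apply Finset.sum_le_sum
            intro y _
            show (pm r).real {ω | ω (Sum.inl z) = true ∧
              (G (EdI m) ω (T : Set (V n))).Reachable z y} * _ ≤ _
            apply mul_le_mul_of_nonneg_left _ measureReal_nonneg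
            have hsm : Summable (fun v : V n => if v ∈ T then (0 : ℝ) else
                (r (Sum.inr s(y, v)) : ℝ)) := by
              apply Summable.of_nonneg_of_le _ _ (prob_summable (m := m) a 1 β s hs y)
              · intro v
                split_ifs
                · exact le_refl _
                · exact (r _).2.1
              · intro v
                split_ifs
                · exact (r _).2.1
                · exact le_refl _
            refine le_trans (le_of_eq ?_) (hsm.sum_le_tsum (R \ T) ?_)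
            · apply Finset.sum_congr rfl
              intro v hv
              rw [if_neg (Finset.mem_sdiff.1 hv).2]
            · intro v _
              split_ifs
              · exact le_refl _
              · exact (r _).2.1
    rw [Finset.sum_add_distrib] at e1
    linarith
  have hMle : M ≤ S.card + ρ * M := Finset.sup'_le _ _ hstep
  have h3 : M ≤ S.card / (1 - ρ) := by
    rw [le_div_iff₀ (by linarith)]
    linarith
  exact (hXM x hx).trans h3

theorem s_simonS (h1 : S_indep) (h2 : S_depmeas) (hH : S_harris) : S_simonS := by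
  classical
  intro n m a β s hs S ρ h0 hρ hphi x
  set r : Ix n → unitInterval := prob a 1 β s m with hr
  set K : ℝ := S.card / (1 - ρ) with hK
  have hfin : ∀ F : Finset (V n), ∑ w ∈ F,
      pm r (QE (EdI m) univ x w) ≤ ENNReal.ofReal K := by
    intro F
    have e1 : ∀ w, pm r (QE (EdI m) univ x w) =
        ⨆ R : Finset (V n), pm r (QE (EdI m) (R : Set (V n)) x w) := by
      intro w
      rw [← Directed.measure_iUnion]
      · congr 1
        ext ω
        simp only [mem_iUnion]
        constructor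
        · intro h
          obtain ⟨R, hR⟩ := reach_univ h.2
          exact ⟨R, h.1, hR⟩
        · rintro ⟨R, hR⟩
          exact ⟨hR.1, reach_mono (subset_univ _) hR.2⟩
      · intro R R'
        refine ⟨R ∪ R', ?_, ?_⟩
        · intro ω hω
          exact ⟨hω.1, reach_mono (by simp) hω.2⟩
        · intro ω hω
          exact ⟨hω.1, reach_mono (by simp) hω.2⟩
    simp_rw [e1]
    rw [ENNReal.finsetSum_iSup_of_monotone]
    · apply iSup_le
      intro R
      set R' : Finset (V n) := R ∪ F ∪ {x} with hR'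
      calc ∑ w ∈ F, pm r (QE (EdI m) (R : Set (V n)) x w)
          ≤ ∑ w ∈ R', pm r (QE (EdI m) (R' : Set (V n)) x w) := by
            refine le_trans (Finset.sum_le_sum (g := fun w =>
              pm r (QE (EdI m) (R' : Set (V n)) x w)) ?_) ?_
            · intro w _
              apply measure_mono
              intro ω hω
              refine ⟨hω.1, reach_mono ?_ hω.2⟩
              rw [hR']
              intro v hv
              simp only [Finset.coe_union, mem_union]
              exact Or.inl (Or.inl hv)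
            · apply Finset.sum_le_sum_of_subset
              rw [hR']
              intro v hv
              simp [hv]
        _ = ENNReal.ofReal (∑ w ∈ R', Q r (EdI m) (R' : Set (V n)) x w) := by
            rw [ENNReal.ofReal_sum_of_nonneg (fun w _ => Q_nonneg _ _ _ _ _)]
            apply Finset.sum_congr rfl
            intro w _
            rw [Q, ofReal_measureReal]
        _ ≤ ENNReal.ofReal K := by
            apply ENNReal.ofReal_le_ofReal
            exact region_bound h1 h2 hH a β s hs S ρ h0 hρ hphi R' x (by simp [hR'])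
    · intro w R R' hRR'
      apply measure_mono
      intro ω hω
      exact ⟨hω.1, reach_mono (by exact_mod_cast hRR') hω.2⟩
  have hsum : ∑' w, pm r (QE (EdI m) univ x w) ≠ ⊤ := by
    rw [ENNReal.tsum_eq_iSup_sum]
    exact ne_top_of_le_ne_top ENNReal.ofReal_ne_top (iSup_le hfin)
  have hae := ae_finite_setOfPred_mem hsum
  rw [Measure.real]
  have h3 : pm r (Perc (EdI m) x) = 0 := by
    rw [← nonpos_iff_eq_zero, ← ae_iff.1 hae]
    apply measure_mono
    intro ω hω hfin'
    have hω' : (cl (EdI m) ω univ x).Infinite := hω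
    have hxo : ω (Sum.inl x) = true := by
      by_contra hx
      apply hω'
      apply (Set.finite_singleton x).subset
      intro v hv
      have hv' : (G (EdI m) ω univ).Reachable x v := hv
      rw [reach_iff] at hv'
      rcases Relation.ReflTransGen.cases_head hv' with h | ⟨b, hb, _⟩
      · exact h.symm
      · exact absurd hb.2.2.2.2.1 hx
    apply hω'
    apply hfin'.subset
    intro v hv
    exact ⟨hxo, hv⟩
  rw [h3, ENNReal.toReal_zero]

end

end Pool.Agent.W376.PC.SimonS
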